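import Pool.Agent.D0H45.TH.Stm

/-!
# Module 3 ALGA of project TH (helper45)
-/

set_option autoImplicit false

namespace Pool.Agent.D0H13.TH

open Module Polynomial Pool.Agent.D0H45.TH

/-- the rank of `z * e` as a function of `z` -/
theorem finrank_range_mulRight {F V : Type} [Field F] [AddCommGroup V] [Module F V]
    [Module.Finite F V] (e : Module.End F V) :
    finrank F (LinearMap.range (LinearMap.mulRight F e)) ≤
      finrank F (LinearMap.range e) * finrank F V := by
  have h1 : LinearMap.range (LinearMap.mulRight F e) ≤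
      LinearMap.range (LinearMap.lcomp F V e.rangeRestrict) := by
    rintro _ ⟨z, rfl⟩
    refine ⟨z.comp (LinearMap.range e).subtype, ?_⟩
    ext x
    simp
  calc finrank F (LinearMap.range (LinearMap.mulRight F e))
      ≤ finrank F (LinearMap.range (LinearMap.lcomp F V e.rangeRestrict)) :=
        Submodule.finrank_mono h1
    _ ≤ finrank F (LinearMap.range e →ₗ[F] V) := LinearMap.finrank_range_le _
    _ = finrank F (LinearMap.range e) * finrank F V := Module.finrank_linearMap _ _ _ _

/-- the covering step -/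
theorem cover {F V G : Type} [Field F] [AddCommGroup V] [Module F V] [Module.Finite F V]
    [Group G] (ρ : G →* Module.End F V) (U : Subgroup G) (hU : U.Normal) (hfin : Finite (G ⧸ U))
    (Bad : Set (G ⧸ U)) (hBad : Bad.ncard * finrank F V ^ 2 < 2 * Nat.card (G ⧸ U))
    (e : Module.End F V) (he : ∀ g : G, (g : G ⧸ U) ∉ Bad → LinearMap.trace F V (ρ g * e) = 0)
    (htr : LinearMap.trace F V e ≠ 0) : finrank F V < 2 * finrank F (LinearMap.range e) := by
  by_contra hcon
  push Not at hcon
  set s : Set (Module.End F V) := Set.range fun x : G => ρ x * e with hs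
  obtain ⟨f, hf, hspan, -⟩ := Submodule.exists_fun_fin_finrank_span_eq F s
  have hM : finrank F (Submodule.span F s) ≤ finrank F (LinearMap.range e) * finrank F V := by
    refine (Submodule.finrank_mono ?_).trans (finrank_range_mulRight e)
    rw [Submodule.span_le]
    rintro _ ⟨x, rfl⟩
    exact ⟨ρ x, rfl⟩
  choose x hx using hf
  -- every `g` is moved to `Bad`
  have hcov : ∀ g : G, ∃ i, ((g * x i : G) : G ⧸ U) ∈ Bad := by
    intro g
    by_contra hno
    push Not at hno
    have h0 : ∀ z ∈ Submodule.span F s, LinearMap.trace F V (ρ g * z) = 0 := by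
      intro z hz
      rw [← hspan] at hz
      induction hz using Submodule.span_induction with
      | mem z hz =>
        obtain ⟨i, rfl⟩ := hz
        rw [← hx i]
        simp only
        rw [← mul_assoc, ← map_mul]
        exact he _ (hno i)
      | zero => simp
      | add a b _ _ ha hb => rw [mul_add, map_add, ha, hb, add_zero]
      | smul c a _ ha => rw [mul_smul_comm, map_smul, ha, smul_zero]
    apply htr
    have h1 := h0 (ρ g⁻¹ * e) (Submodule.subset_span ⟨g⁻¹, rfl⟩)
    rwa [← mul_assoc, ← map_mul, mul_inv_cancel, map_one, one_mul] at h1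
  have hcard : Nat.card (G ⧸ U) ≤ finrank F (Submodule.span F s) * Bad.ncard := by
    have h1 : (Set.univ : Set (G ⧸ U)) ⊆
        ⋃ i : Fin (finrank F (Submodule.span F s)), (fun q => q * ((x i : G) : G ⧸ U)⁻¹) '' Bad := by
      intro q _
      obtain ⟨g, rfl⟩ := QuotientGroup.mk_surjective q
      obtain ⟨i, hi⟩ := hcov g
      refine Set.mem_iUnion.2 ⟨i, _, hi, ?_⟩
      simp
    have h2 := Set.ncard_le_ncard h1 (Set.toFinite _)
    rw [Set.ncard_univ] at h2
    refine h2.trans ?_
    refine (Set.ncard_iUnion_le_of_fintype _).trans ?_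
    refine (Finset.sum_le_card_nsmul _ _ Bad.ncard ?_).trans ?_
    · intro i _
      exact Set.ncard_image_le (Set.toFinite _)
    · simp
  have h3 : 2 * Nat.card (G ⧸ U) ≤ Bad.ncard * finrank F V ^ 2 := by
    calc 2 * Nat.card (G ⧸ U) ≤ 2 * (finrank F (Submodule.span F s) * Bad.ncard) := by gcongr
      _ ≤ 2 * ((finrank F (LinearMap.range e) * finrank F V) * Bad.ncard) := by gcongr
      _ = (2 * finrank F (LinearMap.range e)) * finrank F V * Bad.ncard := by ring
      _ ≤ finrank F V * finrank F V * Bad.ncard := by gcongr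
      _ = Bad.ncard * finrank F V ^ 2 := by ring
  omega

/-- the projection to a generalised eigenspace as a polynomial -/
theorem exists_proj {F V : Type} [Field F] [AddCommGroup V] [Module F V]
    [Module.Finite F V] (x : Module.End F V) (a : F) (ha : a ≠ 0) (hx : x.HasEigenvalue a) :
    ∃ p : F[X], X ∣ p ∧ p.eval a = 1 ∧ IsIdempotentElem (aeval x p) ∧ aeval x p ≠ 0 ∧
      LinearMap.range (aeval x p) ≤ x.maxGenEigenspace a := by
  classical
  set χ := x.charpoly with hχ
  have hmon : χ.Monic := LinearMap.charpoly_monic x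
  have hroot : χ.IsRoot a := (Module.End.hasEigenvalue_iff_isRoot_charpoly x a).1 hx
  obtain ⟨h, hh, hnd⟩ := Polynomial.exists_eq_pow_rootMultiplicity_mul_and_not_dvd χ hmon.ne_zero a
  set m := χ.rootMultiplicity a with hm
  have hm1 : m ≠ 0 := (Polynomial.rootMultiplicity_pos hmon.ne_zero |>.2 hroot).ne'
  have hCH : aeval x χ = 0 := LinearMap.aeval_self_charpoly x
  have hcop : IsCoprime ((X - C a) ^ m) (X * h) := by
    apply IsCoprime.pow_left
    apply IsCoprime.mul_right
    · have := Polynomial.isCoprime_X_sub_C_of_isUnit_sub (R := F) (a := a) (b := 0)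
        (by simpa using ha)
      simpa using this
    · exact (Polynomial.irreducible_X_sub_C a).coprime_iff_not_dvd.2 hnd
  obtain ⟨b, c, hbc⟩ := hcop
  have hpa : (c * (X * h)).eval a = 1 := by
    have := congrArg (Polynomial.eval a) hbc
    simpa [hm1] using this
  have hkill : aeval x (c * (X * h)) * aeval x ((X - C a) ^ m) = 0 := by
    rw [← map_mul, show c * (X * h) * (X - C a) ^ m = (c * X) * χ by rw [hh]; ring, map_mul, hCH,
      mul_zero]
  refine ⟨c * (X * h), ⟨c * h, by ring⟩, hpa, ?_, ?_, ?_⟩
  · have h1 : aeval x (b * (X - C a) ^ m) + aeval x (c * (X * h)) = 1 := by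
      rw [← map_add, hbc, map_one]
    have h2 : aeval x (c * (X * h)) * aeval x (b * (X - C a) ^ m) = 0 := by
      rw [mul_comm b, map_mul (aeval x) ((X - C a) ^ m) b, ← mul_assoc, hkill, zero_mul]
    have h3 : aeval x (c * (X * h)) * (aeval x (b * (X - C a) ^ m) + aeval x (c * (X * h))) =
        aeval x (c * (X * h)) := by rw [h1, mul_one]
    rw [mul_add, h2, zero_add] at h3
    exact h3
  · intro h0
    obtain ⟨v, hv⟩ := hx.exists_hasEigenvector
    have h1 := Module.End.aeval_apply_of_hasEigenvector (p := c * (X * h)) hv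
    rw [h0, hpa, one_smul, LinearMap.zero_apply] at h1
    exact hv.2 h1.symm
  · rintro _ ⟨v, rfl⟩
    rw [Module.End.mem_maxGenEigenspace]
    refine ⟨m, ?_⟩
    have h1 : (x - a • (1 : Module.End F V)) ^ m = aeval x ((X - C a) ^ m) := by
      simp [Algebra.algebraMap_eq_smul_one]
    rw [h1, ← Module.End.mul_apply, ← map_mul, mul_comm, map_mul, hkill, LinearMap.zero_apply]

/-- a polynomial without constant term of an element of a subspace closed under multiplication -/
theorem aeval_mem {F V : Type} [Field F] [AddCommGroup V] [Module F V]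
    (D : Submodule F (Module.End F V)) (hD : ∀ a ∈ D, ∀ b ∈ D, a * b ∈ D) (x : Module.End F V)
    (hx : x ∈ D) (p : F[X]) (hp : X ∣ p) : aeval x p ∈ D := by
  obtain ⟨q, rfl⟩ := hp
  have hpow : ∀ k : ℕ, x ^ (k + 1) ∈ D := by
    intro k
    induction k with
    | zero => simpa using hx
    | succ k ih => rw [pow_succ]; exact hD _ ih _ hx
  induction q using Polynomial.induction_on' with
  | add p q hp hq => rw [mul_add, map_add]; exact D.add_mem hp hq
  | monomial k c =>
    have : aeval x (X * monomial k c) = c • x ^ (k + 1) := by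
      rw [map_mul, aeval_X, aeval_monomial, Algebra.algebraMap_eq_smul_one, smul_mul_assoc, one_mul,
        mul_smul_comm, pow_succ']
    rw [this]
    exact D.smul_mem _ (hpow k)

/-- a polynomial which vanishes at all eigenvalues gives a nilpotent operator -/
theorem isNilpotent_aeval {F V : Type} [Field F] [IsAlgClosed F] [AddCommGroup V] [Module F V]
    [Module.Finite F V] (x : Module.End F V) (r : F[X])
    (hr : ∀ a : F, x.HasEigenvalue a → r.eval a = 0) : IsNilpotent (aeval x r) := by
  have hmon : x.charpoly.Monic := LinearMap.charpoly_monic x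
  have h1 := (IsAlgClosed.splits x.charpoly).eq_prod_roots_of_monic hmon
  have h2 : (x.charpoly.roots.map fun a => X - C a).prod ∣
      (x.charpoly.roots.map fun _ => r).prod := by
    apply Multiset.prod_dvd_prod_of_dvd
    intro a ha
    rw [Polynomial.dvd_iff_isRoot]
    apply hr
    rw [Module.End.hasEigenvalue_iff_isRoot_charpoly]
    exact (Polynomial.mem_roots hmon.ne_zero).1 ha
  rw [← h1, Multiset.map_const', Multiset.prod_replicate] at h2
  obtain ⟨q, hq⟩ := h2
  refine ⟨Multiset.card x.charpoly.roots, ?_⟩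
  rw [← map_pow, hq, map_mul, LinearMap.aeval_self_charpoly, zero_mul]

theorem trace_of_isNilpotent {F V : Type} [Field F] [AddCommGroup V] [Module F V]
    [Module.Finite F V] (x : Module.End F V) (hx : IsNilpotent x) :
    LinearMap.trace F V x = 0 :=
  (LinearMap.isNilpotent_trace_of_isNilpotent hx).eq_zero

/-- the trace of an element `1 + x` and of its inverse, if `x` has at most one nonzero eigenvalue -/
theorem traces {F V : Type} [Field F] [IsAlgClosed F] [CharZero F] [AddCommGroup V] [Module F V]
    [Module.Finite F V] (a b : Module.End F V) (hab : a * b = 1) (hba : b * a = 1)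
    (htr : LinearMap.trace F V a = LinearMap.trace F V b)
    (huniq : ∀ c d : F, c ≠ 0 → d ≠ 0 → (a - 1).HasEigenvalue c → (a - 1).HasEigenvalue d → c = d) :
    IsNilpotent (a - 1) ∨ ∃ m : ℕ, m ≠ 0 ∧ m ≤ finrank F V ∧
      LinearMap.trace F V a = (finrank F V : F) - 2 * (m : F) := by
  by_cases hex : ∃ c : F, c ≠ 0 ∧ (a - 1).HasEigenvalue c
  swap
  · left
    push Not at hex
    have := isNilpotent_aeval (a - 1) X (fun c hc => by
      by_contra h
      rw [eval_X] at h
      exact hex c h hc)
    simpa using this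
  right
  obtain ⟨c, hc0, hc⟩ := hex
  obtain ⟨p, hXp, hpc, hid, hne, -⟩ := exists_proj (a - 1) c hc0 hc
  set e := aeval (a - 1) p with he
  refine ⟨finrank F (LinearMap.range e), ?_, LinearMap.finrank_range_le e, ?_⟩
  · intro h0
    rw [Submodule.finrank_eq_zero, LinearMap.range_eq_bot] at h0
    exact hne h0
  have hte : LinearMap.trace F V e = (finrank F (LinearMap.range e) : F) := by
    rw [LinearMap.IsProj.trace (LinearMap.IsIdempotentElem.isProj_range e hid)]
  -- the nilpotent part
  set N : Module.End F V := aeval (a - 1) (X - C c * p) with hN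
  have hNnil : IsNilpotent N := by
    apply isNilpotent_aeval
    intro d hd
    by_cases hd0 : d = 0
    · subst hd0
      obtain ⟨q, rfl⟩ := hXp
      simp
    · have := huniq c d hc0 hd0 hc hd
      subst this
      simp [hpc]
  have hae : a = 1 + c • e + N := by
    rw [hN, map_sub, aeval_X, map_mul, aeval_C, ← he, Algebra.algebraMap_eq_smul_one,
      smul_mul_assoc, one_mul]
    abel
  have hcomm_a : ∀ q : F[X], Commute (aeval (a - 1) q) a := by
    intro q
    have h1 : Commute (aeval (a - 1) q) (a - 1) := by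
      have : Commute (aeval (a - 1) q) (aeval (a - 1) (X : F[X])) := by
        rw [Commute, SemiconjBy, ← map_mul, ← map_mul, mul_comm]
      simpa using this
    have h2 := h1.add_right (Commute.one_right (aeval (a - 1) q))
    simpa using h2
  have hcomm_b : ∀ q : F[X], Commute (aeval (a - 1) q) b := by
    intro q
    have h1 := hcomm_a q
    calc aeval (a - 1) q * b = (b * a) * (aeval (a - 1) q * b) := by rw [hba, one_mul]
      _ = b * (a * aeval (a - 1) q) * b := by noncomm_ring
      _ = b * (aeval (a - 1) q * a) * b := by rw [h1.eq]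
      _ = b * aeval (a - 1) q * (a * b) := by noncomm_ring
      _ = b * aeval (a - 1) q := by rw [hab, mul_one]
  -- `1 + c ≠ 0`
  have hc1 : 1 + c ≠ 0 := by
    intro h0
    obtain ⟨v, hv⟩ := hc.exists_hasEigenvector
    have h1 : (a - 1) v = c • v := hv.apply_eq_smul
    have h2 : a v = 0 := by
      have : a v = (a - 1) v + v := by simp
      rw [this, h1, ← one_smul F v, smul_smul, ← add_smul, mul_one, add_comm c 1, h0, zero_smul]
    have h3 : v = 0 := by
      calc v = (b * a) v := by rw [hba]; rfl
        _ = b (a v) := rfl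
        _ = 0 := by rw [h2, map_zero]
    exact hv.2 h3
  have hee : e * e = e := hid
  set c' : F := (1 + c)⁻¹ - 1 with hc'
  have hcc : c + c' + c * c' = 0 := by
    rw [hc']; field_simp; ring
  have hs : (1 + c • e) * (1 + c' • e) = 1 := by
    rw [mul_add, mul_one, add_mul, one_mul, smul_mul_smul_comm, hee]
    have : c • e + (c' • e + (c * c') • e) = 0 := by
      rw [← add_smul, ← add_smul, ← add_assoc, hcc, zero_smul]
    calc 1 + c • e + (c' • e + (c * c') • e) = 1 + (c • e + (c' • e + (c * c') • e)) := by abel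
      _ = 1 := by rw [this, add_zero]
  have hs' : (1 + c' • e) * (1 + c • e) = 1 := by
    rw [mul_add, mul_one, add_mul, one_mul, smul_mul_smul_comm, hee]
    have : c' • e + (c • e + (c' * c) • e) = 0 := by
      rw [← add_smul, ← add_smul, ← add_assoc, mul_comm c' c, add_comm c' c, hcc, zero_smul]
    calc 1 + c' • e + (c • e + (c' * c) • e) = 1 + (c' • e + (c • e + (c' * c) • e)) := by abel
      _ = 1 := by rw [this, add_zero]
  have hb : b = (1 + c' • e) + -((1 + c' • e) * N * b) := by
    have h1 : N = a - (1 + c • e) := by rw [hae]; abel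
    calc b = ((1 + c' • e) * (1 + c • e)) * b := by rw [hs', one_mul]
      _ = (1 + c' • e) * (a - N) * b := by rw [h1]; noncomm_ring
      _ = (1 + c' • e) * (a * b) - (1 + c' • e) * N * b := by noncomm_ring
      _ = (1 + c' • e) + -((1 + c' • e) * N * b) := by rw [hab, mul_one, sub_eq_add_neg]
  have hnil2 : IsNilpotent ((1 + c' • e) * N * b) := by
    have h1 : (1 + c' • e) * N * b = N * ((1 + c' • e) * b) := by
      have : Commute (1 + c' • e) N := by
        apply Commute.add_left (Commute.one_left _)
        apply Commute.smul_left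
        rw [he, hN, Commute, SemiconjBy, ← map_mul, ← map_mul, mul_comm]
      rw [this.eq, mul_assoc]
    rw [h1]
    apply Commute.isNilpotent_mul_right _ hNnil
    apply Commute.mul_right
    · apply Commute.add_right (Commute.one_right _)
      apply Commute.smul_right
      rw [he, hN, Commute, SemiconjBy, ← map_mul, ← map_mul, mul_comm]
    · exact hcomm_b _
  have hta : LinearMap.trace F V a = (finrank F V : F) + c * (finrank F (LinearMap.range e) : F) := by
    conv_lhs => rw [hae]
    rw [map_add, map_add, map_smul, trace_of_isNilpotent N hNnil, hte, LinearMap.trace_one,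
      smul_eq_mul, add_zero]
  have htb : LinearMap.trace F V b =
      (finrank F V : F) + c' * (finrank F (LinearMap.range e) : F) := by
    conv_lhs => rw [hb]
    rw [map_add, map_neg, trace_of_isNilpotent _ hnil2, map_add, map_smul, hte,
      LinearMap.trace_one, smul_eq_mul, neg_zero, add_zero]
  have hm0 : (finrank F (LinearMap.range e) : F) ≠ 0 := by
    rw [Nat.cast_ne_zero]
    intro h0
    rw [Submodule.finrank_eq_zero, LinearMap.range_eq_bot] at h0
    exact hne h0
  have h4 : c = c' := by
    rw [hta, htb] at htr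
    exact mul_right_cancel₀ hm0 (add_left_cancel htr)
  have h5 : c = -2 := by
    rw [← h4] at hcc
    have : c * (c + 2) = 0 := by linear_combination hcc
    rcases mul_eq_zero.1 this with h | h
    · exact absurd h hc0
    · linear_combination h
  rw [hta, h5]
  ring

/-- **Module 3 ALGA** -/
theorem t_ALGA : S_ALGA := by
  intro F V G _ _ _ _ _ _ _ ρ U ψ 𝓤 hU hfin htw hconn hdual Bad hBad hgood
  set D : Submodule F (Module.End F V) :=
    Submodule.span F {z | ∃ u ∈ U, z = ψ u • ρ u - 1} with hDdef
  have hgen : ∀ u ∈ U, ψ u • ρ u - 1 ∈ D := fun u hu => Submodule.subset_span ⟨u, hu, rfl⟩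
  have hrmul : ∀ u ∈ U, ∀ v ∈ U, (ψ u • ρ u) * (ψ v • ρ v) = ψ (u * v) • ρ (u * v) := by
    intro u hu v hv
    rw [smul_mul_smul_comm, htw.mul u hu v hv, map_mul]
  -- left multiplication
  have hleft : ∀ v ∈ U, ∀ d ∈ D, ρ v * d ∈ D := by
    intro v hv d hd
    induction hd using Submodule.span_induction with
    | mem z hz =>
      obtain ⟨u, hu, rfl⟩ := hz
      have h1 : ρ v * (ψ u • ρ u - 1) =
          (ψ v)⁻¹ • ((ψ (v * u) • ρ (v * u) - 1) - (ψ v • ρ v - 1)) := by
        rw [← hrmul v hv u hu, sub_sub_sub_cancel_right,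
          show (ψ v • ρ v) * (ψ u • ρ u) - ψ v • ρ v = ψ v • (ρ v * (ψ u • ρ u - 1)) by
            rw [mul_sub, mul_one, smul_sub, smul_mul_assoc],
          smul_smul, inv_mul_cancel₀ (htw.ne v hv), one_smul]
      rw [h1]
      exact D.smul_mem _ (D.sub_mem (hgen _ (U.mul_mem hv hu)) (hgen v hv))
    | zero => simp
    | add a b _ _ ha hb => rw [mul_add]; exact D.add_mem ha hb
    | smul c a _ ha => rw [mul_smul_comm]; exact D.smul_mem _ ha
  have hDmul : ∀ a ∈ D, ∀ b ∈ D, a * b ∈ D := by
    intro a ha b hb
    induction ha using Submodule.span_induction with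
    | mem z hz =>
      obtain ⟨u, hu, rfl⟩ := hz
      rw [sub_mul, one_mul, smul_mul_assoc]
      exact D.sub_mem (D.smul_mem _ (hleft u hu b hb)) hb
    | zero => simp
    | add a b _ _ ha hb => rw [add_mul]; exact D.add_mem ha hb
    | smul c a _ ha => rw [smul_mul_assoc]; exact D.smul_mem _ ha
  -- (i)
  have hi : ∀ g : G, (g : G ⧸ U) ∉ Bad → ∀ d ∈ D, LinearMap.trace F V (ρ g * d) = 0 := by
    intro g hg d hd
    obtain ⟨y, hy, U', hU', hfinU⟩ := hgood g hg
    have h1 := hconn.const U' hU'
      ((LinearMap.trace F V).comp (LinearMap.mulLeft F (ρ y))) (by simpa using hfinU)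
    have h2 : ∀ d ∈ D, LinearMap.trace F V (ρ y * d) = 0 := by
      intro d hd
      induction hd using Submodule.span_induction with
      | mem z hz =>
        obtain ⟨u, hu, rfl⟩ := hz
        have h3 := h1 u hu
        simp only [LinearMap.comp_apply, LinearMap.mulLeft_apply] at h3
        rw [mul_sub, map_sub, h3, sub_self]
      | zero => simp
      | add a b _ _ ha hb => rw [mul_add, map_add, ha, hb, add_zero]
      | smul c a _ ha => rw [mul_smul_comm, map_smul, ha, smul_zero]
    have h3 : ρ g * d = ρ y * (ρ (y⁻¹ * g) * d) := by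
      rw [← mul_assoc, ← map_mul, mul_inv_cancel_left]
    rw [h3]
    apply h2
    apply hleft _ _ _ hd
    have h4 := U.inv_mem hy
    simpa using h4
  -- (ii)
  have hii : ∀ e ∈ D, LinearMap.trace F V e ≠ 0 → finrank F V < 2 * finrank F (LinearMap.range e) := by
    intro e he htr
    exact cover ρ U hU hfin Bad hBad e (fun g hg => hi g hg e he) htr
  -- (iii)
  have hiii : ∀ x ∈ D, ∀ c d : F, c ≠ 0 → d ≠ 0 → x.HasEigenvalue c → x.HasEigenvalue d →
      c = d := by
    intro x hx c d hc0 hd0 hc hd
    by_contra hcd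
    obtain ⟨p, hXp, -, hidp, hnep, hrp⟩ := exists_proj x c hc0 hc
    obtain ⟨q, hXq, -, hidq, hneq, hrq⟩ := exists_proj x d hd0 hd
    have key : ∀ p : F[X], X ∣ p → IsIdempotentElem (aeval x p) → aeval x p ≠ 0 →
        finrank F V < 2 * finrank F (LinearMap.range (aeval x p)) := by
      intro p hXp hidp hnep
      apply hii _ (aeval_mem D hDmul x hx p hXp)
      rw [LinearMap.IsProj.trace (LinearMap.IsIdempotentElem.isProj_range _ hidp),
        Nat.cast_ne_zero]
      intro h0
      rw [Submodule.finrank_eq_zero, LinearMap.range_eq_bot] at h0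
      exact hnep h0
    have h1 := key p hXp hidp hnep
    have h2 := key q hXq hidq hneq
    have h3 : Disjoint (LinearMap.range (aeval x p)) (LinearMap.range (aeval x q)) :=
      Disjoint.mono hrp hrq (Module.End.disjoint_genEigenspace x hcd _ _)
    have h4 := Submodule.finrank_add_finrank_le_of_disjoint h3
    omega
  -- (iv)
  have hinv1 : ∀ u ∈ U, (ψ u • ρ u) * (ψ u⁻¹ • ρ u⁻¹) = 1 := by
    intro u hu
    rw [hrmul u hu _ (U.inv_mem hu), mul_inv_cancel, htw.one, map_one, one_smul]
  have hinv2 : ∀ u ∈ U, (ψ u⁻¹ • ρ u⁻¹) * (ψ u • ρ u) = 1 := by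
    intro u hu
    rw [hrmul _ (U.inv_mem hu) u hu, inv_mul_cancel, htw.one, map_one, one_smul]
  have hiv : ∀ u ∈ U, IsNilpotent (ψ u • ρ u - 1) ∨ ∃ m : ℕ, m ≠ 0 ∧ m ≤ finrank F V ∧
      LinearMap.trace F V (ψ u • ρ u) = (finrank F V : F) - 2 * (m : F) := by
    intro u hu
    exact traces _ _ (hinv1 u hu) (hinv2 u hu) (hdual u hu) (hiii _ (hgen u hu))
  have hfinite : {x : F | ∃ u ∈ U, x = LinearMap.trace F V (ψ u • ρ u)}.Finite := by
    apply Set.Finite.subset (Set.finite_range
      (fun m : Fin (finrank F V + 1) => (finrank F V : F) - 2 * ((m : ℕ) : F)))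
    rintro _ ⟨u, hu, rfl⟩
    rcases hiv u hu with h | ⟨m, -, hm, h⟩
    · refine ⟨⟨0, Nat.succ_pos _⟩, ?_⟩
      have h1 := trace_of_isNilpotent _ h
      rw [map_sub, LinearMap.trace_one, sub_eq_zero] at h1
      simp [h1]
    · exact ⟨⟨m, Nat.lt_succ_of_le hm⟩, h.symm⟩
  intro u hu
  rcases hiv u hu with h | ⟨m, hm0, -, h⟩
  · exact h
  · exfalso
    have h1 := hconn.const U hconn.mem (LinearMap.trace F V) hfinite u hu
    rw [h, LinearMap.trace_one] at h1
    have h2 : (m : F) = 0 := by
      have : (2 : F) * (m : F) = 0 := by linear_combination -h1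
      simpa using this
    exact hm0 (by exact_mod_cast h2)

end Pool.Agent.D0H13.TH
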